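import Pool.Agent.K7.H74.AF.Stm

/-!
# Project AF, job AE: almost all points of the cube
-/

set_option autoImplicit false

namespace Pool.Agent.K7.H87.AF

open MeasureTheory Finset Pool.Agent.K7.H74.AF

theorem measurable_snoc' (t : ℕ) :
    Measurable fun q : (Fin t → ℝ) × ℝ => (Fin.snoc q.1 q.2 : Fin (t + 1) → ℝ) := by
  rw [measurable_pi_iff]
  intro i
  refine Fin.lastCases ?_ (fun j => ?_) i
  · simp only [Fin.snoc_last]
    exact measurable_snd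
  · simp only [Fin.snoc_castSucc]
    exact (measurable_pi_apply j).comp measurable_fst

theorem ae_snoc (t : ℕ) (P : (Fin (t + 1) → ℝ) → Prop) (hP : MeasurableSet {ξ | P ξ})
    (h : ∀ᵐ ξ ∂(cube t), ∀ᵐ β ∂(volume.restrict (Set.Ioc (0 : ℝ) 1)), P (Fin.snoc ξ β)) :
    ∀ᵐ ξ ∂(cube (t + 1)), P ξ := by
  have hm : MeasurableSet {q : (Fin t → ℝ) × ℝ | P (Fin.snoc q.1 q.2)} :=
    measurable_snoc' t hP
  have h1 : ∀ᵐ q ∂((cube t).prod (volume.restrict (Set.Ioc (0 : ℝ) 1))), P (Fin.snoc q.1 q.2) := by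
    unfold cube at h ⊢
    exact (Measure.ae_prod_iff_ae_ae hm).2 h
  have h2 : ∀ᵐ q ∂((volume.restrict (Set.Ioc (0 : ℝ) 1)).prod (cube t)), P (Fin.snoc q.2 q.1) := by
    unfold cube at h1 ⊢
    exact (Measure.measurePreserving_swap
      (μ := volume.restrict (Set.Ioc (0 : ℝ) 1))
      (ν := Measure.pi fun _ : Fin t => volume.restrict (Set.Ioc (0 : ℝ) 1))).quasiMeasurePreserving.ae h1
  have h3 := (measurePreserving_piFinSuccAbove
    (fun _ : Fin (t + 1) => (volume.restrict (Set.Ioc (0 : ℝ) 1) : Measure ℝ)) (Fin.last t))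
  unfold cube at h2 ⊢
  refine (h3.quasiMeasurePreserving.ae h2).mono fun ξ hξ => ?_
  have e : (Fin.snoc ((MeasurableEquiv.piFinSuccAbove (fun _ : Fin (t + 1) => ℝ) (Fin.last t)) ξ).2
      ((MeasurableEquiv.piFinSuccAbove (fun _ : Fin (t + 1) => ℝ) (Fin.last t)) ξ).1 :
        Fin (t + 1) → ℝ) = ξ := by
    funext i
    refine Fin.lastCases ?_ (fun j => ?_) i
    · rw [Fin.snoc_last]
      rfl
    · rw [Fin.snoc_castSucc]
      change ξ ((Fin.last t).succAbove j) = _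
      rw [Fin.succAbove_last]
  rw [e] at hξ
  exact hξ

theorem ae_perm (t : ℕ) (P : (Fin t → ℝ) → Prop) (h : ∀ᵐ ξ ∂(cube t), P ξ) :
    ∀ᵐ ξ ∂(cube t), ∀ σ : Equiv.Perm (Fin t), P (ξ ∘ σ) := by
  rw [ae_all_iff]
  intro σ
  unfold cube at h ⊢
  have h1 := measurePreserving_piCongrLeft
    (fun _ : Fin t => (volume.restrict (Set.Ioc (0 : ℝ) 1) : Measure ℝ)) σ.symm
  refine (h1.quasiMeasurePreserving.ae h).mono fun ξ hξ => ?_
  have e : (MeasurableEquiv.piCongrLeft (fun _ : Fin t => ℝ) σ.symm) ξ = ξ ∘ σ := by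
    funext i
    obtain ⟨j, rfl⟩ := σ.symm.surjective i
    rw [MeasurableEquiv.piCongrLeft_apply_apply]
    simp
  rw [e] at hξ
  exact hξ

theorem ae_mem (t : ℕ) : ∀ᵐ ξ ∂(cube t), ∀ i, 0 < ξ i ∧ ξ i ≤ 1 := by
  rw [ae_all_iff]
  intro i
  have h : ∀ᵐ x ∂(volume.restrict (Set.Ioc (0 : ℝ) 1)), 0 < x ∧ x ≤ 1 :=
    ae_restrict_mem measurableSet_Ioc
  unfold cube
  exact (Measure.tendsto_eval_ae_ae
    (μ := fun _ : Fin t => volume.restrict (Set.Ioc (0 : ℝ) 1)) (i := i)).eventually h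

/-- JOB AE -/
theorem stAe : StAe := ⟨ae_snoc, ae_perm, ae_mem⟩

end Pool.Agent.K7.H87.AF
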